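import Mathlib
import Pool.Agent.X273.SaitoDefs
import Pool.Agent.X273.SaitoMain

set_option autoImplicit false

/-!
# The Saito-type criterion for SPOG arrangements

For every field `K`, every `l`, every central arrangement `A` in `K^l` and all homogeneous
`θ_1, …, θ_{l+1}` in `D(A)`, with no assumption on the projective dimension of `D(A)`, the
polynomials `g_i` with `(-1)^i det M_i = g_i Q` exist and conditions (i) and (ii) are equivalent.
-/

namespace Pool.Agent.Results.MP_eea557_ag.SpogCriterion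

open Pool.Agent.X273.Saito

universe u

theorem result : ∀ (K : Type u) [Field K] (l n : ℕ) (A : Fin n → Fin l → K), IsArrangement A →
    ∀ θ : Fin (l + 1) → Der K l, (∀ i, θ i ∈ logDer A) → (∀ i, ∃ d : ℕ, IsHomDer (θ i) d) →
    ∃ g : Fin (l + 1) → MvPolynomial (Fin l) K,
      (∀ i : Fin (l + 1), (-1) ^ ((i : ℕ) + 1) * minor θ i = g i * defPoly A) ∧
      (CondI A θ g ↔ CondII g) := by
  intro K _ l n A hA θ hθ hh
  have h1 : ∀ i : Fin (l + 1), ∃ c, (-1) ^ ((i : ℕ) + 1) * minor θ i = c * defPoly A := by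
    intro i
    obtain ⟨c, hc⟩ := minor_dvd hA θ hθ i
    exact ⟨(-1) ^ ((i : ℕ) + 1) * c, by rw [hc]; ring⟩
  choose g hg using h1
  exact ⟨g, hg, fun h => one_imp_two hA hθ hg hh h, fun h => two_imp_one hA hθ hg hh h⟩

end Pool.Agent.Results.MP_eea557_ag.SpogCriterion
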